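import Pool.Agent.U331.CG.Dec

set_option autoImplicit false

/-! The two classes: random integers with exchangeable pairs of opposite digits, sums of independent random integers. -/

namespace Pool.Agent.U331.CG
open Finset
open Pool.Agent.H807R2.Dav
open Pool.Agent.W93.AU
open Pool.Agent.W93.DG
open Pool.Agent.U331.MW
open Pool.Agent.U331.SU

/-- the exponential sums decay exponentially -/
theorem mir_expT (b : ℕ) (hb : 2 ≤ b) (η : ℝ) (hη0 : 0 < η) (hη1 : η ≤ 1) (T : ℕ) : ExpT b (b ^ 4).factorial T (Mirror b η T) := by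
  classical
  intro c hc0 hc1
  obtain ⟨M, hM⟩ : ∃ M : ℕ, M = (b ^ 4).factorial := ⟨_, rfl⟩
  have hM1 : (1 : ℝ) ≤ M := by rw [hM]; exact_mod_cast Nat.factorial_pos _
  have hbr : (2 : ℝ) ≤ b := by exact_mod_cast hb
  obtain ⟨δ, hδ⟩ : ∃ δ : ℝ, δ = c / (28 * M * (b : ℝ) ^ 2) := ⟨_, rfl⟩
  have hδ0 : 0 < δ := by rw [hδ]; positivity
  have hδ7 : 2 * (M : ℝ) * (b : ℝ) ^ 2 * δ < c / 7 := by
    have : 2 * (M : ℝ) * (b : ℝ) ^ 2 * δ = c / 14 := by
      rw [hδ]
      field_simp
      norm_num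
    rw [this]
    linarith
  have hδ1 : δ ≤ 1 / 2 := by
    rw [hδ, div_le_iff₀ (by positivity)]
    have : (1 : ℝ) ≤ M * (b : ℝ) ^ 2 := by nlinarith
    nlinarith
  obtain ⟨ν, hν⟩ : ∃ ν : ℝ, ν = 1 - 2 * δ ^ 2 * η ^ 2 := ⟨_, rfl⟩
  have hν0 : 0 < ν := by
    rw [hν]
    have h1 : δ ^ 2 ≤ 1 / 4 := by nlinarith
    have h2 : η ^ 2 ≤ 1 := by nlinarith
    have : δ ^ 2 * η ^ 2 ≤ 1 / 4 * 1 := mul_le_mul h1 h2 (by positivity) (by norm_num)
    linarith
  have hν1 : ν < 1 := by
    rw [hν]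
    have : 0 < δ ^ 2 * η ^ 2 := by positivity
    linarith
  refine ⟨ν, 4, hν0, hν1, by norm_num, fun k p hp θ n ht => ?_⟩
  obtain ⟨h0, _, μ, _, hμ1, hpμ, hex⟩ := hp
  have h2 := count_good (k := k) (θ := θ) hb (by rw [← hM]; exact hδ7)
  have h3 : n ≤ ((range (k / 2)).filter (fun i => GM b δ θ k i)).card := by omega
  have h4 := Z_bound (C := (k : ℝ) ^ T) hη0 hη1 (by positivity) h0 hpμ hex θ δ hδ0 hδ1 k 0 0 0 (by omega) (by norm_num) (by norm_num)
  have e1 : ∀ w, frame b k 0 0 0 w = w := fun w => by unfold frame; simp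
  have e2 : Z b p θ k 0 0 0 = ∑ v ∈ range (b ^ k), (p v : ℂ) * ee (v * θ) := by
    unfold Z
    apply sum_congr rfl
    intro w _
    rw [e1, pow_zero, mul_one]
  have e3 : outer b μ k 0 0 0 = 1 := by
    unfold outer
    simp only [e1]
    exact hμ1
  rw [e2, e3, mul_one, ← hν] at h4
  refine h4.trans ?_
  apply mul_le_mul_of_nonneg_left _ (by positivity)
  have e4 : (range (k / 2)).filter (fun j => 0 ≤ j ∧ GM b δ θ k j) = (range (k / 2)).filter (fun i => GM b δ θ k i) := by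
    apply filter_congr
    intro j _
    simp
  rw [e4]
  exact pow_le_pow_of_le_one hν0.le hν1.le h3

open Classical in
/-- sums of independent random integers -/
theorem sums_expT (b s M : ℕ) (hb : 2 ≤ b) (η : ℝ) (hη0 : 0 < η) : ExpT b M 0 (Sums b s M η) := by
  intro c hc0 hc1
  obtain ⟨δ, hδ⟩ : ∃ δ : ℝ, δ = c / (14 * ((s : ℝ) + 1) ^ 2) := ⟨_, rfl⟩
  have hs0 : (0 : ℝ) ≤ s := Nat.cast_nonneg s
  have hδ0 : 0 < δ := by rw [hδ]; positivity
  have hδs : (s : ℝ) * s * δ < c / 7 := by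
    rw [hδ, mul_div_assoc', div_lt_div_iff₀ (by positivity) (by norm_num)]
    have : (s : ℝ) * s ≤ ((s : ℝ) + 1) ^ 2 := by nlinarith
    nlinarith
  have hδ1 : δ ≤ 1 / 4 := by
    rw [hδ, div_le_iff₀ (by positivity)]
    nlinarith
  obtain ⟨η', hη'⟩ : ∃ η' : ℝ, η' = min η 1 := ⟨_, rfl⟩
  have hη'0 : 0 < η' := by rw [hη']; exact lt_min hη0 one_pos
  have hη'1 : η' ≤ 1 := by rw [hη']; exact min_le_right _ _
  have hη'η : η' ≤ η := by rw [hη']; exact min_le_left _ _
  obtain ⟨ν, hν⟩ : ∃ ν : ℝ, ν = 1 - 4 * η' * δ ^ 2 := ⟨_, rfl⟩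
  have hν0 : 0 < ν := by
    rw [hν]
    have h1 : δ ^ 2 ≤ 1 / 16 := by nlinarith
    have h2 : η' * δ ^ 2 ≤ 1 * (1 / 16) := mul_le_mul hη'1 h1 (by positivity) (by norm_num)
    linarith
  have hν1 : ν < 1 := by
    rw [hν]
    have : 0 < η' * δ ^ 2 := by positivity
    linarith
  refine ⟨ν, 2 * s + 1, hν0, hν1, by omega, fun k p hp θ n0 ht => ?_⟩
  obtain ⟨N, S, π, h1, h2, h3, J, n, c', x, y, ⟨hJ1, hJ2⟩, hrep, hval, hmult⟩ := hp.ex
  rw [pow_zero, one_mul, sums_char h2 h3, norm_prod]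
  -- the good factors
  obtain ⟨𝒩, h𝒩⟩ : ∃ 𝒩 : Finset (Fin N), 𝒩 = univ.filter (fun m => ‖∑ x ∈ S m, (π m x : ℂ) * ee (x * θ)‖ ≤ ν) := ⟨_, rfl⟩
  have hbig : n0 ≤ 𝒩.card := by
    have hsub : (range k).filter (fun j : ℕ => Gd b c ((b : ℝ) ^ j * ((M : ℝ) * θ))) ⊆
        (range k \ J) ∪ 𝒩.biUnion (fun m => J.filter fun j => ∃ t, n j t = m) := by
      intro j hj
      rw [mem_filter] at hj
      rw [mem_union, mem_sdiff, mem_biUnion]
      by_cases hjJ : j ∈ J
      swap
      · exact Or.inl ⟨hj.1, hjJ⟩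
      right
      by_contra hcon
      push Not at hcon
      -- all the differences are close to the integers
      have hclose : ∀ t, ∃ z : ℤ, |((x j t : ℝ) - y j t) * θ - z| < δ := by
        intro t
        by_contra hfar
        push Not at hfar
        obtain ⟨_, ⟨q2, q3⟩, q4, q5⟩ := hval j hjJ t
        apply hcon (n j t)
        · rw [h𝒩, mem_filter]
          refine ⟨mem_univ _, ?_⟩
          rw [hν]
          exact factor_small (h1 _).1 (h1 _).2 θ η' δ hη'0.le hδ0 _ _ q2 q3 (hη'η.trans q4) (hη'η.trans q5) hfar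
        · rw [mem_filter]
          exact ⟨hjJ, t, rfl⟩
      choose z hz using hclose
      have hgd := hj.2 0 1 (by norm_num) (by omega)
      rw [Nat.cast_zero, zero_mul, Nat.cast_one, one_mul] at hgd
      have h0 : ee 0 = 1 := by
        have := ee_int 0
        rwa [Int.cast_zero] at this
      rw [h0] at hgd
      have hfar := norm_far _ c hgd (∑ t, c' j t * z t)
      have e1 : (b : ℝ) ^ j * ((M : ℝ) * θ) = ∑ t, (c' j t : ℝ) * (((x j t : ℝ) - y j t) * θ) := by
        have h4 : ((M * b ^ j : ℕ) : ℝ) = ∑ t, (c' j t : ℝ) * ((x j t : ℝ) - y j t) := by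
          have := hrep j hjJ
          exact_mod_cast this
        calc (b : ℝ) ^ j * ((M : ℝ) * θ) = ((M * b ^ j : ℕ) : ℝ) * θ := by push_cast; ring
          _ = _ := by
              rw [h4, sum_mul]
              apply sum_congr rfl
              intro t _
              ring
      rw [e1] at hfar
      have e2 : |∑ t, (c' j t : ℝ) * (((x j t : ℝ) - y j t) * θ) - ((∑ t, c' j t * z t : ℤ) : ℝ)| ≤ s * s * δ := by
        have e3 : ∑ t, (c' j t : ℝ) * (((x j t : ℝ) - y j t) * θ) - ((∑ t, c' j t * z t : ℤ) : ℝ) =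
            ∑ t, (c' j t : ℝ) * ((((x j t : ℝ) - y j t) * θ) - z t) := by
          push_cast
          rw [← sum_sub_distrib]
          apply sum_congr rfl
          intro t _
          ring
        rw [e3]
        refine (abs_sum_le_sum_abs _ _).trans ?_
        calc ∑ t, |(c' j t : ℝ) * ((((x j t : ℝ) - y j t) * θ) - z t)| ≤ ∑ _t : Fin s, (s : ℝ) * δ := by
              apply sum_le_sum
              intro t _
              rw [abs_mul]
              apply mul_le_mul _ (hz t).le (abs_nonneg _) hs0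
              have := (hval j hjJ t).1
              exact_mod_cast this
          _ = s * s * δ := by
              rw [sum_const, card_univ, Fintype.card_fin, nsmul_eq_mul]
              ring
      linarith
    have hc1 := (card_le_card hsub).trans (card_union_le _ _)
    have hc2 : (range k \ J).card ≤ s := by
      rw [card_sdiff_of_subset hJ1, card_range]
      omega
    have hc3 : (𝒩.biUnion (fun m => J.filter fun j => ∃ t, n j t = m)).card ≤ 𝒩.card * s :=
      card_biUnion_le_card_mul _ _ _ (fun m _ => hmult m)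
    by_contra hcon
    have hcon' : 𝒩.card + 1 ≤ n0 := by omega
    have h7 : (2 * s + 1) * (n0 + 1) ≤ s + 𝒩.card * s := ht.trans (hc1.trans (add_le_add hc2 hc3))
    nlinarith
  calc ∏ m, ‖∑ x ∈ S m, (π m x : ℂ) * ee (x * θ)‖ ≤ ∏ m, (if m ∈ 𝒩 then ν else 1) := by
        apply prod_le_prod
        · intro m _
          exact norm_nonneg _
        · intro m _
          split_ifs with hm
          · rw [h𝒩, mem_filter] at hm
            exact hm.2
          · exact factor_le_one (h1 m).1 (h1 m).2 θ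
    _ = ν ^ 𝒩.card := by
        rw [prod_ite]
        simp
    _ ≤ ν ^ n0 := pow_le_pow_of_le_one hν0.le hν1.le hbig


theorem mir_dom (b : ℕ) (hb : 2 ≤ b) (η : ℝ) (hη0 : 0 < η) (hη1 : η ≤ 1) (T : ℕ) :
    DomC b (b.factorial * (b ^ 4).factorial) T (Mirror b η T) :=
  dom_of_exp b _ T hb (Nat.factorial_pos _) _ (fun _ _ h => h.nonneg) (fun _ _ h => h.sum) (mir_expT b hb η hη0 hη1 T)

theorem sums_dom (b s M : ℕ) (hb : 2 ≤ b) (hM : 1 ≤ M) (η : ℝ) (hη0 : 0 < η) : DomC b (b.factorial * M) 0 (Sums b s M η) :=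
  dom_of_exp b M 0 hb hM _ (fun _ _ h => sums_nonneg h) (fun _ _ h => sums_one h) (sums_expT b s M hb η hη0)

end Pool.Agent.U331.CG
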