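import Pool.Agent.N794.CG.Pairs
import Pool.Agent.N794.CG.Quad
import Pool.Agent.U331.SU.Sum

set_option autoImplicit false

/-! Classes of random integers whose exponential sums decay exponentially in the number of the far digits: the one-dimensional
statements of `Pool.Agent.N794.CG`. -/

namespace Pool.Agent.U331.CG
open Finset Filter
open Pool.Agent.TH872
open Pool.Agent.H807R2.Dav
open Pool.Agent.W93.AU
open Pool.Agent.W93.DG
open Pool.Agent.N625.PT (sum_blocks)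
open Pool.Agent.N794.CG
open Pool.Agent.R459.Eq (Decays)
open Pool.Agent.U331.MW (norm_far)

open Classical in
/-- the exponential sums decay exponentially in the number of the good positions of `M θ`, with the factor `m ^ T` -/
def ExpT (b M T : ℕ) (C : ℕ → (ℕ → ℝ) → Prop) : Prop :=
  ∀ c : ℝ, 0 < c → c ≤ 1 / 4 → ∃ (μ : ℝ) (D : ℕ), 0 < μ ∧ μ < 1 ∧ 1 ≤ D ∧ ∀ m p, C m p → ∀ θ : ℝ, ∀ n : ℕ,
    D * (n + 1) ≤ ((range m).filter (fun j : ℕ => Gd b c ((b : ℝ) ^ j * ((M : ℝ) * θ)))).card →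
    ‖∑ v ∈ range (b ^ m), (p v : ℂ) * ee (v * θ)‖ ≤ (m : ℝ) ^ T * μ ^ n

/-- the class is dominated by random integers with decaying characteristic functions -/
def DomC (b F T : ℕ) (C : ℕ → (ℕ → ℝ) → Prop) : Prop :=
  ∃ (A : ℕ) (γ : ℝ), 0 < γ ∧ γ < 1 ∧ ∀ k : ℕ, 1 ≤ k → ∀ p : ℕ → ℝ, C k p → ∀ κ c : ℤ,
    Dom b F A k γ κ ((k : ℝ) ^ T) (range (b ^ k)) p (fun v => c + κ * (v : ℕ))

/-- good for a multiple implies good -/
lemma gd_div (b M : ℕ) (hM : 1 ≤ M) (c y : ℝ) (hc : 0 < c) (h : Gd b c ((M : ℝ) * y)) : Gd b (4 * (c / (7 * M)) ^ 2) y := by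
  have hMr : (0 : ℝ) < M := by exact_mod_cast (by omega : 0 < M)
  apply gd_dist b _ _ (by positivity)
  intro d hd0 hdb n
  have h1 := h 0 d hd0 hdb
  rw [Nat.cast_zero, zero_mul] at h1
  have h2 : ee 0 = 1 := by
    have := ee_int 0
    rwa [Int.cast_zero] at this
  rw [h2] at h1
  have h3 := norm_far _ c h1 (M * n)
  have e1 : (d : ℝ) * ((M : ℝ) * y) - ((M * n : ℤ) : ℝ) = M * (d * y - n) := by push_cast; ring
  rw [e1, abs_mul, abs_of_pos hMr] at h3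
  rw [div_le_iff₀ (by positivity)]
  rw [div_le_iff₀ (by norm_num)] at h3
  nlinarith

lemma unif_factor (b : ℕ) (hb : 2 ≤ b) (c y : ℝ) (h : Gd b c y) : ‖∑ a ∈ range b, ee ((a : ℝ) * y)‖ ≤ b - c := by
  obtain ⟨n, rfl⟩ : ∃ n, b = n + 2 := ⟨b - 2, by omega⟩
  rw [sum_range_succ', sum_range_succ']
  have h1 := h 0 1 (by norm_num) (by omega)
  have h2 : ‖∑ k ∈ range n, ee (((k + 1 + 1 : ℕ) : ℝ) * y)‖ ≤ n := by
    refine (norm_sum_le _ _).trans ?_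
    simp [norm_ee]
  have e1 : ∑ k ∈ range n, ee (((k + 1 + 1 : ℕ) : ℝ) * y) + ee (((0 + 1 : ℕ) : ℝ) * y) + ee (((0 : ℕ) : ℝ) * y) =
      ∑ k ∈ range n, ee (((k + 1 + 1 : ℕ) : ℝ) * y) + (ee (((0 : ℕ) : ℝ) * y) + ee (((1 : ℕ) : ℝ) * y)) := by
    rw [zero_add]
    ring
  rw [e1]
  refine (norm_add_le _ _).trans ?_
  push_cast at h1 h2 ⊢
  linarith

open Classical in
/-- the exponential sums of the uniform distribution -/
lemma unif_char (b : ℕ) (hb : 2 ≤ b) (c θ : ℝ) (_hc0 : 0 < c) (hc1 : c ≤ 1) (k : ℕ) :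
    ‖∑ v ∈ range (b ^ k), ee ((v : ℝ) * θ)‖ ≤
      (b : ℝ) ^ k * (1 - c / b) ^ ((range k).filter (fun j : ℕ => Gd b c ((b : ℝ) ^ j * θ))).card := by
  have hbr : (2 : ℝ) ≤ b := by exact_mod_cast hb
  have hcb : c / b ≤ 1 / 2 := by
    rw [div_le_div_iff₀ (by linarith) (by norm_num)]
    linarith
  induction k with
  | zero =>
    simp [norm_ee]
  | succ k ih =>
    have e1 : ∑ v ∈ range (b ^ (k + 1)), ee ((v : ℝ) * θ) =
        (∑ a ∈ range b, ee ((a : ℝ) * ((b : ℝ) ^ k * θ))) * ∑ v ∈ range (b ^ k), ee ((v : ℝ) * θ) := by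
      rw [pow_succ, mul_comm (b ^ k) b, sum_blocks b (b ^ k), sum_mul]
      apply sum_congr rfl
      intro a _
      rw [mul_sum]
      apply sum_congr rfl
      intro v _
      rw [← ee_add]
      congr 1
      push_cast
      ring
    rw [e1, norm_mul]
    have h0 : ‖∑ a ∈ range b, ee ((a : ℝ) * ((b : ℝ) ^ k * θ))‖ ≤ b := by
      refine (norm_sum_le _ _).trans ?_
      simp [norm_ee]
    have hν : 0 ≤ 1 - c / b := by linarith
    rw [range_add_one, filter_insert]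
    split_ifs with hg
    · rw [card_insert_of_notMem (by simp), pow_succ, pow_succ]
      have h1 := unif_factor b hb c _ hg
      have h2 : (b : ℝ) - c = b * (1 - c / b) := by field_simp
      rw [h2] at h1
      calc _ ≤ (b * (1 - c / b)) * ((b : ℝ) ^ k * (1 - c / b) ^ ((range k).filter (fun j : ℕ => Gd b c ((b : ℝ) ^ j * θ))).card) :=
            mul_le_mul h1 ih (norm_nonneg _) (by positivity)
        _ = _ := by ring
    · rw [pow_succ]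
      calc _ ≤ (b : ℝ) * ((b : ℝ) ^ k * (1 - c / b) ^ ((range k).filter (fun j : ℕ => Gd b c ((b : ℝ) ^ j * θ))).card) :=
            mul_le_mul h0 ih (norm_nonneg _) (by positivity)
        _ = _ := by ring

/-- **classes with exponential decay are dominated by decaying random integers** -/
theorem dom_of_exp (b M T : ℕ) (hb : 2 ≤ b) (hM : 1 ≤ M) (C : ℕ → (ℕ → ℝ) → Prop) (hnn : ∀ k p, C k p → ∀ v, 0 ≤ p v)
    (hsum : ∀ k p, C k p → ∑ v ∈ range (b ^ k), p v = 1) (h : ExpT b M T C) : DomC b (b.factorial * M) T C := by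
  classical
  have hbr : (2 : ℝ) ≤ b := by exact_mod_cast hb
  have hMr : (1 : ℝ) ≤ M := by exact_mod_cast hM
  have hF1 : (1 : ℝ) ≤ (b.factorial : ℝ) := by exact_mod_cast b.factorial_pos
  obtain ⟨c, hc⟩ : ∃ c, c = 4 * (1 / ((b : ℝ) ^ 2 * (b.factorial : ℝ))) ^ 2 := ⟨_, rfl⟩
  have hc0 : 0 < c := by rw [hc]; positivity
  have hc1 : c ≤ 1 / 4 := by
    rw [hc]
    have e1 : (4 : ℝ) ≤ (b : ℝ) ^ 2 * (b.factorial : ℝ) := by nlinarith
    have e2 : 1 / ((b : ℝ) ^ 2 * (b.factorial : ℝ)) ≤ 1 / 4 := one_div_le_one_div_of_le (by norm_num) e1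
    have e3 : 0 ≤ 1 / ((b : ℝ) ^ 2 * (b.factorial : ℝ)) := by positivity
    nlinarith
  obtain ⟨c', hc'⟩ : ∃ c', c' = 4 * (c / (7 * M)) ^ 2 := ⟨_, rfl⟩
  have hc'0 : 0 < c' := by rw [hc']; positivity
  have hc'1 : c' ≤ 1 := by
    rw [hc']
    have h1 : c / (7 * M) ≤ 1 / 4 := (div_le_self hc0.le (by linarith)).trans hc1
    have h2 : 0 ≤ c / (7 * M) := by positivity
    nlinarith
  obtain ⟨μ₁, D, hμ0, hμ1, hD, H⟩ := h c hc0 hc1
  obtain ⟨ν, hν⟩ : ∃ ν, ν = 1 - c' / b := ⟨_, rfl⟩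
  have hcb : c' / b ≤ 1 / 2 := by
    rw [div_le_div_iff₀ (by linarith) (by norm_num)]
    linarith
  have hν0 : 0 < ν := by rw [hν]; linarith
  have hν1 : ν < 1 := by
    rw [hν]
    have : 0 < c' / b := by positivity
    linarith
  obtain ⟨γ, hγ⟩ : ∃ γ, γ = max μ₁ ν := ⟨_, rfl⟩
  have hγ0 : 0 < γ := by rw [hγ]; exact lt_of_lt_of_le hμ0 (le_max_left _ _)
  have hγ1 : γ < 1 := by rw [hγ]; exact max_lt hμ1 hν1
  have hγμ : μ₁ ≤ γ := by rw [hγ]; exact le_max_left _ _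
  have hγν : ν ≤ γ := by rw [hγ]; exact le_max_right _ _
  obtain ⟨t, ht⟩ := exists_pow_lt_of_lt_one (show (0 : ℝ) < 1 / 2 by norm_num) hγ1
  refine ⟨D * (t + 2), γ, hγ0, hγ1, fun k hk p hp κ c₀ => ?_⟩
  have hkT : (1 : ℝ) ≤ (k : ℝ) ^ T := one_le_pow₀ (by exact_mod_cast hk)
  obtain ⟨Q, hQ⟩ : ∃ Q : ℝ, Q = (k : ℝ) ^ T := ⟨_, rfl⟩
  rw [← hQ] at hkT ⊢
  have hQ0 : 0 < Q := by linarith
  have hQ1 : 1 / Q ≤ 1 := by rw [div_le_one hQ0]; exact hkT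
  have hbk : (0 : ℝ) < (b : ℝ) ^ k := by positivity
  obtain ⟨w, hw⟩ : ∃ w : ℕ → ℝ, w = fun v => 1 / Q * p v + (1 - 1 / Q) * (1 / (b : ℝ) ^ k) := ⟨_, rfl⟩
  have hdec : Decays b (b.factorial * M) (D * (t + 2)) k γ κ (range (b ^ k)) w (fun v => c₀ + κ * (v : ℕ)) := by
    have hw0 : ∀ i ∈ range (b ^ k), 0 ≤ w i := by
      intro i _
      rw [hw]
      have := hnn k p hp i
      have h1 : 0 ≤ 1 - 1 / Q := by linarith
      positivity
    have hw1 : ∑ i ∈ range (b ^ k), w i = 1 := by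
      rw [hw, sum_add_distrib, ← mul_sum, hsum k p hp, sum_const, card_range, nsmul_eq_mul]
      push_cast
      field_simp
      ring
    refine ⟨hw0, hw1, fun θ N hfar _ => ?_⟩
    have e1 : ∑ i ∈ range (b ^ k), (w i : ℂ) * ee (((c₀ + κ * (i : ℕ) : ℤ) : ℝ) * θ) =
        ee ((c₀ : ℝ) * θ) * (((1 / Q : ℝ) : ℂ) * ∑ v ∈ range (b ^ k), (p v : ℂ) * ee (v * ((κ : ℝ) * θ)) +
          ((1 - 1 / Q : ℝ) : ℂ) * (((1 / (b : ℝ) ^ k : ℝ) : ℂ) * ∑ v ∈ range (b ^ k), ee (v * ((κ : ℝ) * θ)))) := by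
      rw [hw]
      simp only [mul_sum, ← sum_add_distrib]
      refine sum_congr rfl fun v _ => ?_
      have e2 : (((c₀ + κ * (v : ℕ) : ℤ) : ℝ) * θ) = (c₀ : ℝ) * θ + v * ((κ : ℝ) * θ) := by
        push_cast
        ring
      rw [e2, ee_add]
      push_cast
      ring
    rw [e1, norm_mul, norm_ee, one_mul]
    -- the good positions
    obtain ⟨𝒢, h𝒢⟩ : ∃ 𝒢 : Finset ℕ, 𝒢 = (range k).filter (fun j : ℕ => Gd b c ((b : ℝ) ^ j * ((M : ℝ) * ((κ : ℝ) * θ)))) := ⟨_, rfl⟩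
    have hcount : Mir.farCount b (b.factorial * M) k ((κ : ℝ) * θ) ≤ 𝒢.card := by
      unfold Mir.farCount
      rw [h𝒢]
      apply card_le_card
      intro j hj
      rw [mem_filter] at hj ⊢
      refine ⟨hj.1, ?_⟩
      have h1 := gd_of_far b hb ((b : ℝ) ^ j * ((M : ℝ) * ((κ : ℝ) * θ))) (by
        have e3 : (b.factorial : ℝ) * ((b : ℝ) ^ j * ((M : ℝ) * ((κ : ℝ) * θ))) =
            ((b.factorial * M : ℕ) : ℝ) * ((b : ℝ) ^ j * ((κ : ℝ) * θ)) := by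
          push_cast
          ring
        rw [e3]
        exact hj.2)
      rw [hc]
      exact h1
    have hG : D * (t + 2) * (N + 1) ≤ 𝒢.card := hfar.trans hcount
    have g1 := H k p hp ((κ : ℝ) * θ) (N + t) (by
      rw [← h𝒢]
      refine le_trans ?_ hG
      rw [mul_assoc]
      apply Nat.mul_le_mul_left
      nlinarith)
    have g2 := unif_char b hb c' ((κ : ℝ) * θ) hc'0 hc'1 k
    have hsub : 𝒢.card ≤ ((range k).filter (fun j : ℕ => Gd b c' ((b : ℝ) ^ j * ((κ : ℝ) * θ)))).card := by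
      apply card_le_card
      intro j hj
      rw [h𝒢, mem_filter] at hj
      rw [mem_filter]
      refine ⟨hj.1, ?_⟩
      rw [hc']
      apply gd_div b M hM c _ hc0
      have e3 : (M : ℝ) * ((b : ℝ) ^ j * ((κ : ℝ) * θ)) = (b : ℝ) ^ j * ((M : ℝ) * ((κ : ℝ) * θ)) := by ring
      rw [e3]
      exact hj.2
    have hNt : N + t ≤ 𝒢.card := by
      refine le_trans ?_ hG
      nlinarith [Nat.mul_le_mul hD (le_refl ((t + 2) * (N + 1)))]
    have g3 : ‖∑ v ∈ range (b ^ k), ee (v * ((κ : ℝ) * θ))‖ ≤ (b : ℝ) ^ k * γ ^ (N + t) := by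
      refine g2.trans ?_
      apply mul_le_mul_of_nonneg_left _ hbk.le
      rw [← hν]
      calc ν ^ _ ≤ ν ^ (N + t) := pow_le_pow_of_le_one hν0.le hν1.le (hNt.trans hsub)
        _ ≤ γ ^ (N + t) := pow_le_pow_left₀ hν0.le hγν _
    rw [← hQ] at g1
    have g1' : ‖∑ v ∈ range (b ^ k), (p v : ℂ) * ee (v * ((κ : ℝ) * θ))‖ ≤ Q * γ ^ (N + t) :=
      g1.trans (mul_le_mul_of_nonneg_left (pow_le_pow_left₀ hμ0.le hγμ _) hQ0.le)
    have hγr : 0 ≤ γ ^ (N + t) := by positivity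
    have n1 : ‖((1 / Q : ℝ) : ℂ) * ∑ v ∈ range (b ^ k), (p v : ℂ) * ee (v * ((κ : ℝ) * θ))‖ ≤ γ ^ (N + t) := by
      rw [norm_mul, Complex.norm_real, Real.norm_eq_abs, abs_of_pos (by positivity)]
      calc 1 / Q * _ ≤ 1 / Q * (Q * γ ^ (N + t)) := mul_le_mul_of_nonneg_left g1' (by positivity)
        _ = γ ^ (N + t) := by field_simp
    have n2 : ‖((1 - 1 / Q : ℝ) : ℂ) * (((1 / (b : ℝ) ^ k : ℝ) : ℂ) * ∑ v ∈ range (b ^ k), ee (v * ((κ : ℝ) * θ)))‖ ≤ γ ^ (N + t) := by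
      rw [norm_mul, norm_mul, Complex.norm_real, Real.norm_eq_abs, abs_of_nonneg (by linarith), Complex.norm_real,
        Real.norm_eq_abs, abs_of_pos (by positivity)]
      calc (1 - 1 / Q) * (1 / (b : ℝ) ^ k * _) ≤ 1 * (1 / (b : ℝ) ^ k * ((b : ℝ) ^ k * γ ^ (N + t))) := by
            apply mul_le_mul _ (mul_le_mul_of_nonneg_left g3 (by positivity)) (by positivity) (by norm_num)
            have : 0 < 1 / Q := by positivity
            linarith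
        _ = γ ^ (N + t) := by field_simp
    refine (norm_add_le _ _).trans ((add_le_add n1 n2).trans ?_)
    have e5 : 0 ≤ γ ^ N := by positivity
    calc γ ^ (N + t) + γ ^ (N + t) = γ ^ N * (2 * γ ^ t) := by rw [pow_add]; ring
      _ ≤ γ ^ N * 1 := mul_le_mul_of_nonneg_left (by linarith) e5
      _ = γ ^ N := mul_one _
  intro P τ _ hP E hE hbad
  have h1 := hP ℕ _ _ _ hdec E hE hbad
  calc ∑ i ∈ E, p i ≤ ∑ i ∈ E, Q * w i := by
        apply sum_le_sum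
        intro i _
        rw [hw]
        have h2 : 0 ≤ (1 - 1 / Q) * (1 / (b : ℝ) ^ k) := mul_nonneg (by linarith) (by positivity)
        have h3 : Q * (1 / Q * p i + (1 - 1 / Q) * (1 / (b : ℝ) ^ k)) = p i + Q * ((1 - 1 / Q) * (1 / (b : ℝ) ^ k)) := by
          field_simp
        simp only
        rw [h3]
        have := mul_nonneg hQ0.le h2
        linarith
    _ = Q * ∑ i ∈ E, w i := (mul_sum _ _ _).symm
    _ ≤ Q * τ := mul_le_mul_of_nonneg_left h1 hQ0.le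

/-- the class in the general theorems -/
theorem eng_cls {S : Type} {τ : ℕ → ℝ} {Q : S → ℕ → ℤ → Prop} (hτ : ∀ X, 0 ≤ τ X) (H : Eng τ Q) (b F T : ℕ) (hb : 2 ≤ b)
    (hF : 1 ≤ F) (C : ℕ → (ℕ → ℝ) → Prop) (hC : DomC b F T C) : ∃ W : ℕ, 1 ≤ W ∧ ∀ κ : ℤ, κ ≠ 0 → ∃ X₀ : ℕ, ∀ X : ℕ, X₀ ≤ X →
      ∀ (k : ℕ) (p : ℕ → ℝ), C k p → ∀ (c : ℤ) (s : S),
      Mostly (range (b ^ k)) p (fun v => c + κ * (v : ℕ)) ((k : ℝ) ^ T * τ X)
        (fun n => ∀ x : ℕ, X ≤ x → x ^ W ≤ b ^ k → Q s x n) := by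
  obtain ⟨A, γ, hγ0, hγ1, hdom⟩ := hC
  obtain ⟨W, hW, J⟩ := H b hb A γ hγ0 hγ1
  refine ⟨W, hW, fun κ hκ => ?_⟩
  obtain ⟨X₀, K⟩ := J F κ hF hκ
  refine ⟨X₀ + 2, fun X hX k p hp c s => ?_⟩
  rcases Nat.eq_zero_or_pos k with h0 | h0
  · refine Mostly.of_all (mul_nonneg (by positivity) (hτ X)) fun n x hXx hxW => ?_
    rw [h0, pow_zero] at hxW
    have := vac W X x (by omega) hW hXx
    omega
  · exact K X (by omega) k _ _ _ _ _ (hdom k h0 p hp κ c) s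

theorem fineAt_cls (δ : ℝ) (hδ : 0 < δ) (hδ1 : δ ≤ 1 / 2) (b F T : ℕ) (hb : 2 ≤ b) (hF : 1 ≤ F) (C : ℕ → (ℕ → ℝ) → Prop)
    (hC : DomC b F T C) : ∃ W : ℕ, 1 ≤ W ∧ ∀ κ : ℤ, κ ≠ 0 → ∃ X₀ : ℕ, ∀ X : ℕ, X₀ ≤ X → ∀ (k : ℕ) (p : ℕ → ℝ), C k p → ∀ (c : ℤ),
      FineAt δ X (fun x => x ^ W ≤ b ^ k) ((k : ℝ) ^ T * (2 * (X : ℝ) ^ (-(δ / 2)))) (range (b ^ k)) p
        (fun v => c + κ * (v : ℕ)) := by
  obtain ⟨W, hW, H⟩ := eng_cls (fun X => by positivity) (eng_fine δ hδ hδ1) b F T hb hF C hC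
  refine ⟨W, hW, fun κ hκ => ?_⟩
  obtain ⟨X₀, J⟩ := H κ hκ
  exact ⟨X₀, fun X hX k p hp c s => J X hX k p hp c s⟩

end Pool.Agent.U331.CG
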