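import Pool.Agent.U331.CG.Cls

set_option autoImplicit false

/-! The moments of the class groups of quadratic fields, for classes with exponential decay. -/

namespace Pool.Agent.U331.CG
open Finset NumberField Filter Pool.Agent.N794.CG

open Classical in
theorem quad_cls (b F T : ℕ) (hb : 2 ≤ b) (hF : 1 ≤ F) (C : ℕ → (ℕ → ℝ) → Prop) (hnn : ∀ k p, C k p → ∀ v, 0 ≤ p v)
    (hsum : ∀ k p, C k p → ∑ v ∈ range (b ^ k), p v = 1) (hC : DomC b F T C) (r : ℕ) (hr : 1 ≤ r) :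
    ∃ δ : ℝ, 0 < δ ∧ ∀ κ : ℤ, κ ≠ 0 → ∀ U V : ℕ, ∃ B k₀ : ℕ, ∀ k : ℕ, k₀ ≤ k → ∀ p : ℕ → ℝ, C k p →
    ∀ c j : ℤ, j ≠ 0 → |j| ≤ (k : ℤ) ^ U → ∀ l : ℕ, 1 ≤ l → l ≤ k ^ U → ∀ Y : ℝ, 1 ≤ Y →
    ∀ (S : Set ℤ) (K : ℤ → Type) [∀ n, Field (K n)] [∀ n, NumberField (K n)],
    (∀ n ∈ S, |n| ≤ (b : ℤ) ^ (V * k) ∧ Module.finrank ℚ (K n) = 2 ∧ |(discr (K n) : ℝ)| ≤ Y ∧
      ∃ α : K n, IntermediateField.adjoin ℚ {α} = ⊤ ∧ α ^ 2 = ((j * n : ℤ) : K n)) →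
    ∑ v ∈ range (b ^ k), p v * (if c + κ * v ∈ S then (Nat.card {x : ClassGroup (𝓞 (K (c + κ * v))) // x ^ l = 1} : ℝ) ^ r else 0) ≤
      ((k : ℝ) ^ B * (√Y * max (Y ^ (-(1 / (2 * (l : ℝ))))) ((b : ℝ) ^ (-(δ * k))))) ^ r := by
  obtain ⟨A, γ, hγ0, hγ1, hdom⟩ := hC
  obtain ⟨W, hW, H⟩ := quad_gen b hb A γ hγ0 hγ1 r hr
  have hWr : (0 : ℝ) < W := by exact_mod_cast hW
  refine ⟨1 / W, by positivity, fun κ hκ U V => ?_⟩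
  obtain ⟨B, k₀, J⟩ := H F κ hF hκ U V
  refine ⟨T + B, k₀ + 1, fun k hk p hp c j hj0 hj l hl1 hlT Y hY S K _ _ hS => ?_⟩
  have hk1 : (1 : ℝ) ≤ k := by exact_mod_cast (by omega : 1 ≤ k)
  have h1 := J k (by omega) j hj0 hj l hl1 hlT Y hY S K hS ((k : ℝ) ^ T) ℕ (range (b ^ k)) p
    (fun v => c + κ * (v : ℕ)) (one_le_pow₀ hk1) (fun i _ => hnn k p hp i) (hsum k p hp).le
    (hdom k (by omega) p hp κ c)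
  refine h1.trans ?_
  have e1 : (b : ℝ) ^ (-((k : ℝ) / W)) = (b : ℝ) ^ (-(1 / (W : ℝ) * k)) := by
    congr 1
    ring
  rw [e1]
  have hM : 0 ≤ √Y * max (Y ^ (-(1 / (2 * (l : ℝ))))) ((b : ℝ) ^ (-(1 / (W : ℝ) * k))) := by positivity
  have h2 : (k : ℝ) ^ T ≤ ((k : ℝ) ^ T) ^ r := le_self_pow₀ (one_le_pow₀ hk1) (by omega)
  calc (k : ℝ) ^ T * ((k : ℝ) ^ B * (√Y * max (Y ^ (-(1 / (2 * (l : ℝ))))) ((b : ℝ) ^ (-(1 / (W : ℝ) * k))))) ^ r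
      ≤ ((k : ℝ) ^ T) ^ r * ((k : ℝ) ^ B * (√Y * max (Y ^ (-(1 / (2 * (l : ℝ))))) ((b : ℝ) ^ (-(1 / (W : ℝ) * k))))) ^ r :=
        mul_le_mul_of_nonneg_right h2 (by positivity)
    _ = _ := by
        rw [← mul_pow, ← mul_assoc, ← pow_add]

open Classical in
theorem sur_cls (b F T : ℕ) (hb : 2 ≤ b) (hF : 1 ≤ F) (C : ℕ → (ℕ → ℝ) → Prop) (hnn : ∀ k p, C k p → ∀ v, 0 ≤ p v)
    (hsum : ∀ k p, C k p → ∑ v ∈ range (b ^ k), p v = 1) (hC : DomC b F T C) (r : ℕ) (hr : 1 ≤ r) :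
    ∃ δ : ℝ, 0 < δ ∧ ∀ κ : ℤ, κ ≠ 0 → ∀ U V : ℕ, ∃ B k₀ : ℕ, ∀ k : ℕ, k₀ ≤ k → ∀ p : ℕ → ℝ, C k p →
    ∀ c j : ℤ, j ≠ 0 → |j| ≤ (k : ℤ) ^ U → ∀ (l m : ℕ) (e : Fin r → ℕ), l.Prime → l ^ m ≤ k ^ U → (∀ i, e i ≤ m) →
    ∀ Y : ℝ, 1 ≤ Y →
    ∀ (S : Set ℤ) (K : ℤ → Type) [∀ n, Field (K n)] [∀ n, NumberField (K n)],
    (∀ n ∈ S, |n| ≤ (b : ℤ) ^ (V * k) ∧ Module.finrank ℚ (K n) = 2 ∧ |(discr (K n) : ℝ)| ≤ Y ∧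
      ∃ α : K n, IntermediateField.adjoin ℚ {α} = ⊤ ∧ α ^ 2 = ((j * n : ℤ) : K n)) →
    ∑ v ∈ range (b ^ k), p v * (if c + κ * v ∈ S then (numSur (K (c + κ * v)) l e : ℝ) else 0) ≤
      ((k : ℝ) ^ B * (√Y * max (Y ^ (-(1 / (2 * (l : ℝ) ^ m)))) ((b : ℝ) ^ (-(δ * k))))) ^ r := by
  obtain ⟨A, γ, hγ0, hγ1, hdom⟩ := hC
  obtain ⟨W, hW, H⟩ := sur_gen b hb A γ hγ0 hγ1 r hr
  have hWr : (0 : ℝ) < W := by exact_mod_cast hW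
  refine ⟨1 / W, by positivity, fun κ hκ U V => ?_⟩
  obtain ⟨B, k₀, J⟩ := H F κ hF hκ U V
  refine ⟨T + B, k₀ + 1, fun k hk p hp c j hj0 hj l m e hl1 hlT he Y hY S K _ _ hS => ?_⟩
  have hk1 : (1 : ℝ) ≤ k := by exact_mod_cast (by omega : 1 ≤ k)
  have h1 := J k (by omega) j hj0 hj l m e hl1 hlT he Y hY S K hS ((k : ℝ) ^ T) ℕ (range (b ^ k)) p
    (fun v => c + κ * (v : ℕ)) (one_le_pow₀ hk1) (fun i _ => hnn k p hp i) (hsum k p hp).le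
    (hdom k (by omega) p hp κ c)
  refine h1.trans ?_
  have e1 : (b : ℝ) ^ (-((k : ℝ) / W)) = (b : ℝ) ^ (-(1 / (W : ℝ) * k)) := by
    congr 1
    ring
  rw [e1]
  have hM : 0 ≤ √Y * max (Y ^ (-(1 / (2 * (l : ℝ) ^ m)))) ((b : ℝ) ^ (-(1 / (W : ℝ) * k))) := by positivity
  have h2 : (k : ℝ) ^ T ≤ ((k : ℝ) ^ T) ^ r := le_self_pow₀ (one_le_pow₀ hk1) (by omega)
  calc (k : ℝ) ^ T * ((k : ℝ) ^ B * (√Y * max (Y ^ (-(1 / (2 * (l : ℝ) ^ m)))) ((b : ℝ) ^ (-(1 / (W : ℝ) * k))))) ^ r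
      ≤ ((k : ℝ) ^ T) ^ r * ((k : ℝ) ^ B * (√Y * max (Y ^ (-(1 / (2 * (l : ℝ) ^ m)))) ((b : ℝ) ^ (-(1 / (W : ℝ) * k))))) ^ r :=
        mul_le_mul_of_nonneg_right h2 (by positivity)
    _ = _ := by
        rw [← mul_pow, ← mul_assoc, ← pow_add]

end Pool.Agent.U331.CG
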