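import Pool.Agent.U331.CG.Cls

set_option autoImplicit false

/-! The primes which split in quadratic fields, for classes with exponential decay (after the starting file
`Pool.Agent.Results.MP_aaa0df_nt.ExchangeableFields`). -/

namespace Pool.Agent.U331.CG.Fields

open Finset Filter Pool.Agent.R459.Eq Pool.Agent.N794.CG Pool.Agent.U331.CG

open Classical in
/-- The random integer `n = c + κ v` has the property `P` with a probability of at least `1 - τ`, if `v < b ^ k` is random with the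
distribution `p`. -/
def Almost (b k : ℕ) (p : ℕ → ℝ) (κ c : ℤ) (τ : ℝ) (P : ℤ → Prop) : Prop :=
  ∑ v ∈ range (b ^ k), (if P (c + κ * v) then 0 else p v) ≤ τ

lemma almost_of {b k : ℕ} {p : ℕ → ℝ} {κ c : ℤ} {τ : ℝ} {P Q : ℤ → Prop}
    (h : Mostly (range (b ^ k)) p (fun v => c + κ * (v : ℕ)) τ P) (hPQ : ∀ n, P n → Q n) : Almost b k p κ c τ Q := by
  classical
  have h1 := h ((range (b ^ k)).filter (fun v : ℕ => ¬ Q (c + κ * v))) (filter_subset _ _)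
    (fun i hi hP => (mem_filter.1 hi).2 (hPQ _ hP))
  unfold Almost
  refine le_trans (le_of_eq ?_) h1
  rw [sum_filter]
  apply sum_congr rfl
  intro v _
  by_cases hv : Q (c + κ * v)
  · rw [if_pos hv, if_neg (not_not.2 hv)]
  · rw [if_neg hv, if_pos hv]

/-- `d` is `1` or the discriminant of a quadratic field. -/
def Fund (d : ℤ) : Prop := (d % 4 = 1 ∧ Squarefree d) ∨ ∃ m : ℤ, d = 4 * m ∧ (m % 4 = 2 ∨ m % 4 = 3) ∧ Squarefree m

/-- The number of the primes `p < t` in `T` which split in the quadratic field with the discriminant `d`. -/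
noncomputable def split (T : Set ℕ) (d : ℤ) (t : ℝ) : ℕ :=
  Set.ncard {p : ℕ | p.Prime ∧ p ∈ T ∧ (p : ℝ) < t ∧ ¬ ((p : ℤ) ∣ d) ∧ ∃ x : ℤ, (4 * (p : ℤ)) ∣ x ^ 2 - d}

/-- The number of the primes `p < t` in `T`. -/
noncomputable def total (T : Set ℕ) (t : ℝ) : ℕ := Set.ncard {p : ℕ | p.Prime ∧ p ∈ T ∧ (p : ℝ) < t}

lemma fund_mod {d : ℤ} (h : Fund d) : d % 4 = 1 ∨ d % 4 = 0 := by
  rcases h with h | ⟨m, hm, _⟩
  · exact Or.inl h.1
  · right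
    rw [hm]
    exact Int.mul_emod_right 4 m

/-- the primes with `(n / p) = 1` split -/
lemma splits {p : ℕ} (hp : p.Prime) (hp2 : p ≠ 2) {n d m : ℤ} (hd : Fund d) (h : 4 * n = d * m ^ 2) (hJ : jacobiSym n p = 1) :
    ¬ ((p : ℤ) ∣ d) ∧ ∃ x : ℤ, (4 * (p : ℤ)) ∣ x ^ 2 - d := by
  haveI : Fact p.Prime := ⟨hp⟩
  rw [← jacobiSym.legendreSym.to_jacobiSym] at hJ
  have hn0 : (n : ZMod p) ≠ 0 := by
    intro h0
    rw [(legendreSym.eq_zero_iff p n).2 h0] at hJ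
    norm_num at hJ
  obtain ⟨r, hr⟩ := (legendreSym.eq_one_iff p hn0).1 hJ
  have h2 : (2 : ZMod p) ≠ 0 := by
    intro h0
    have h1 : ((2 : ℕ) : ZMod p) = 0 := by exact_mod_cast h0
    rw [ZMod.natCast_eq_zero_iff] at h1
    exact hp2 ((Nat.prime_dvd_prime_iff_eq hp Nat.prime_two).1 h1)
  have h3 : (4 : ZMod p) * n = d * (m : ZMod p) ^ 2 := by
    have := congrArg (fun z : ℤ => (z : ZMod p)) h
    push_cast at this
    exact this
  have h4 : (4 : ZMod p) = 2 * 2 := by norm_num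
  have hm0 : (m : ZMod p) ≠ 0 := by
    intro h0
    rw [h0, h4] at h3
    have : (2 : ZMod p) * 2 * n ≠ 0 := mul_ne_zero (mul_ne_zero h2 h2) hn0
    apply this
    rw [h3]
    ring
  have hd0 : (d : ZMod p) ≠ 0 := by
    intro h0
    rw [h0, h4] at h3
    have : (2 : ZMod p) * 2 * n ≠ 0 := mul_ne_zero (mul_ne_zero h2 h2) hn0
    apply this
    rw [h3]
    ring
  obtain ⟨y, hy⟩ : ∃ y : ℤ, (y : ZMod p) = 2 * r / m := ⟨((2 * r / (m : ZMod p)).val : ℤ), by simp⟩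
  have hy2 : (y : ZMod p) ^ 2 = d := by
    rw [hy]
    field_simp
    linear_combination h3 - 4 * hr
  refine ⟨fun h5 => hd0 ((ZMod.intCast_zmod_eq_zero_iff_dvd d p).2 h5), ?_⟩
  have hpodd : (p : ℤ) % 2 = 1 := by
    have := hp.eq_two_or_odd
    omega
  obtain ⟨x, hx1, hx2⟩ : ∃ x : ℤ, (x : ZMod p) = y ∧ (x - d) % 2 = 0 := by
    rcases Int.emod_two_eq_zero_or_one (y - d) with h5 | h5
    · exact ⟨y, rfl, h5⟩
    · refine ⟨y + p, by simp, ?_⟩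
      omega
  refine ⟨x, ?_⟩
  have h6 : (p : ℤ) ∣ x ^ 2 - d := by
    rw [← ZMod.intCast_zmod_eq_zero_iff_dvd]
    push_cast
    rw [hx1, hy2, sub_self]
  have h7 : (4 : ℤ) ∣ x ^ 2 - d := by
    rcases fund_mod hd with h8 | h8
    · have h9 : x % 2 = 1 := by omega
      obtain ⟨a, ha⟩ : ∃ a, x = 2 * a + 1 := ⟨x / 2, by omega⟩
      obtain ⟨e, he⟩ : ∃ e, d = 4 * e + 1 := ⟨d / 4, by omega⟩
      exact ⟨a ^ 2 + a - e, by rw [ha, he]; ring⟩
    · have h9 : x % 2 = 0 := by omega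
      obtain ⟨a, ha⟩ : ∃ a, x = 2 * a := ⟨x / 2, by omega⟩
      obtain ⟨e, he⟩ : ∃ e, d = 4 * e := ⟨d / 4, by omega⟩
      exact ⟨a ^ 2 - e, by rw [ha, he]; ring⟩
  have hcop : IsCoprime (4 : ℤ) (p : ℤ) := by
    have h8 : Nat.Coprime 4 p := by
      have h9 : Nat.Coprime 2 p := (Nat.coprime_primes Nat.prime_two hp).2 (Ne.symm hp2)
      exact Nat.Coprime.mul_left h9 h9
    exact_mod_cast Nat.isCoprime_iff_coprime.2 h8
  exact hcop.mul_dvd h7 h6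

/-- the primes with `(n / p) = -1` do not split -/
lemma not_splits {p : ℕ} (hp : p.Prime) (hp2 : p ≠ 2) {n d m : ℤ} (h : 4 * n = d * m ^ 2) (hJ : jacobiSym n p = -1) :
    ¬ ∃ x : ℤ, (4 * (p : ℤ)) ∣ x ^ 2 - d := by
  haveI : Fact p.Prime := ⟨hp⟩
  rw [← jacobiSym.legendreSym.to_jacobiSym] at hJ
  rintro ⟨x, hx⟩
  apply (legendreSym.eq_neg_one_iff p).1 hJ
  have h2 : (2 : ZMod p) ≠ 0 := by
    intro h0
    have h1 : ((2 : ℕ) : ZMod p) = 0 := by exact_mod_cast h0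
    rw [ZMod.natCast_eq_zero_iff] at h1
    exact hp2 ((Nat.prime_dvd_prime_iff_eq hp Nat.prime_two).1 h1)
  have h3 : (4 : ZMod p) * n = d * (m : ZMod p) ^ 2 := by
    have := congrArg (fun z : ℤ => (z : ZMod p)) h
    push_cast at this
    exact this
  have h5 : (x : ZMod p) ^ 2 = d := by
    have h6 := (ZMod.intCast_zmod_eq_zero_iff_dvd (x ^ 2 - d) p).2 ((Dvd.intro_left 4 rfl).trans hx)
    push_cast at h6
    exact sub_eq_zero.1 h6
  refine ⟨(x : ZMod p) * m / 2, ?_⟩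
  have h4 : (4 : ZMod p) = 2 * 2 := by norm_num
  have h6 : (2 : ZMod p) * 2 * n = (x : ZMod p) ^ 2 * (m : ZMod p) ^ 2 := by rw [← h4, h3, h5]
  field_simp
  linear_combination h6

lemma lt_iff (t : ℝ) (ht : 1 ≤ t) (p : ℕ) : (p : ℝ) < t ↔ p ≤ ⌈t⌉₊ - 1 := by
  have h1 : 1 ≤ ⌈t⌉₊ := by
    rw [Nat.one_le_ceil_iff]
    linarith
  rw [← Nat.lt_ceil]
  omega


theorem fields_cls (b F T₀ : ℕ) (hb : 2 ≤ b) (hF : 1 ≤ F) (C : ℕ → (ℕ → ℝ) → Prop) (hnn : ∀ k p, C k p → ∀ v, 0 ≤ p v)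
    (hC : DomC b F T₀ C) (δ : ℝ) (hδ : 0 < δ)
    (hδ1 : δ ≤ 1 / 2) : ∃ W : ℕ, 1 ≤ W ∧ ∀ κ : ℤ, κ ≠ 0 → ∃ X₀ : ℕ, ∀ X : ℕ, X₀ ≤ X →
    ∀ (k : ℕ) (w : ℕ → ℝ), C k w → ∀ c : ℤ,
    ∀ T : ℕ → Set ℕ, (∀ p j j', p ∈ T j → p ∈ T j' → j = j') →
    Almost b k w κ c (2 * ((k : ℝ) ^ T₀ * (2 * (X : ℝ) ^ (-(δ / 2))))) (fun n => ∀ d m : ℤ, Fund d → m ≠ 0 → 4 * n = d * m ^ 2 →
      ∀ t : ℝ, (X : ℝ) + 1 ≤ t → t ^ W ≤ (b : ℝ) ^ k → ∀ j : ℕ, ((j : ℝ) + 1) ^ 2 ≤ t ^ (δ / 2) →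
      |(split (T j) d t : ℝ) - 1 / 2 * total (T j) t| ≤ 3 * √(max 1 (total (T j) (2 * t) : ℝ)) * t ^ δ) := by
  classical
  obtain ⟨W, hW, H⟩ := fineAt_cls δ hδ hδ1 b F T₀ hb hF C hC
  obtain ⟨X₁, hX₁⟩ := twist_of δ hδ
  refine ⟨W, hW, fun κ hκ => ?_⟩
  obtain ⟨X₀, J⟩ := H κ hκ
  refine ⟨X₀ + X₁ + 1, fun X hX k w hw c T hT => ?_⟩
  have h1 := hX₁ X (by omega) _ _ _ _ _ _ (J X (by omega) k w hw c) T (fun _ => 1) (fun _ => Or.inl rfl) hT
  have h2 := hX₁ X (by omega) _ _ _ _ _ _ (J X (by omega) k w hw c) T (fun _ => -1) (fun _ => Or.inr rfl) hT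
  have h3 := Mostly.and (fun i _ => hnn k w hw i) h1 h2
  have e4 : 2 * ((k : ℝ) ^ T₀ * (2 * (X : ℝ) ^ (-(δ / 2)))) = (k : ℝ) ^ T₀ * (2 * (X : ℝ) ^ (-(δ / 2))) + (k : ℝ) ^ T₀ * (2 * (X : ℝ) ^ (-(δ / 2))) := by ring
  rw [e4]
  refine almost_of h3 ?_
  intro n hn d m hd hm hdm t ht htW j hj
  have hX1 : (1 : ℝ) ≤ X := by exact_mod_cast (by omega : 1 ≤ X)
  have ht1 : (1 : ℝ) ≤ t := by linarith
  have ht0 : (0 : ℝ) < t := by linarith
  obtain ⟨x, hx⟩ : ∃ x, x = ⌈t⌉₊ - 1 := ⟨_, rfl⟩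
  have hc1 : 1 ≤ ⌈t⌉₊ := by
    rw [Nat.one_le_ceil_iff]
    linarith
  have hxt : (x : ℝ) < t := by
    rw [lt_iff t ht1, hx]
  have htx : t ≤ (x : ℝ) + 1 := by
    have h5 := Nat.le_ceil t
    have h6 : (⌈t⌉₊ : ℝ) = (x : ℝ) + 1 := by
      rw [hx]
      push_cast [Nat.cast_sub hc1]
      ring
    linarith
  have hXx : X ≤ x := by
    have h5 : (X : ℝ) ≤ x := by linarith
    exact_mod_cast h5
  have hxW : x ^ W ≤ b ^ k := by
    have h5 : (x : ℝ) ^ W ≤ (b : ℝ) ^ k := (pow_le_pow_left₀ (Nat.cast_nonneg _) hxt.le W).trans htW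
    exact_mod_cast h5
  have hx1 : (1 : ℝ) ≤ x := by
    have : (X : ℝ) ≤ x := by exact_mod_cast hXx
    linarith
  have hjx : (j : ℝ) ≤ (x : ℝ) ^ (δ / 2) := by
    have h5 : t ≤ 2 * x := by linarith
    have h6 : t ^ (δ / 2) ≤ 2 * (x : ℝ) ^ (δ / 2) := by
      calc t ^ (δ / 2) ≤ (2 * x) ^ (δ / 2) := Real.rpow_le_rpow ht0.le h5 (by linarith)
        _ = 2 ^ (δ / 2) * (x : ℝ) ^ (δ / 2) := Real.mul_rpow (by norm_num) (by linarith)
        _ ≤ 2 ^ (1 : ℝ) * (x : ℝ) ^ (δ / 2) := by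
            apply mul_le_mul_of_nonneg_right _ (by positivity)
            exact Real.rpow_le_rpow_of_exponent_le (by norm_num) (by linarith)
        _ = _ := by rw [Real.rpow_one]
    have h7 : (0 : ℝ) ≤ j := Nat.cast_nonneg _
    nlinarith
  have hA := (hn.1 x hXx hxW j hjx)
  have hB := (hn.2 x hXx hxW j hjx)
  obtain ⟨V, hV⟩ : ∃ V : ℝ, V = √(max 1 (((pri (2 * x)).filter (fun p => p ≠ 2 ∧ p ∈ T j)).card : ℝ)) * (x : ℝ) ^ δ := ⟨_, rfl⟩
  obtain ⟨A, hAd⟩ : ∃ A : Finset ℕ, A = (pri x).filter (fun p => p ≠ 2 ∧ p ∈ T j ∧ jacobiSym n p = 1) := ⟨_, rfl⟩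
  obtain ⟨B, hBd⟩ : ∃ B : Finset ℕ, B = (pri x).filter (fun p => p ≠ 2 ∧ p ∈ T j ∧ jacobiSym n p = -1) := ⟨_, rfl⟩
  obtain ⟨Q, hQ⟩ : ∃ Q : Finset ℕ, Q = (pri x).filter (fun p => p ≠ 2 ∧ p ∈ T j) := ⟨_, rfl⟩
  obtain ⟨Q', hQ'⟩ : ∃ Q' : Finset ℕ, Q' = (pri x).filter (fun p => p ∈ T j) := ⟨_, rfl⟩
  obtain ⟨S, hS⟩ : ∃ S : Finset ℕ, S = (pri x).filter (fun p => p ∈ T j ∧ ¬ ((p : ℤ) ∣ d) ∧ ∃ x : ℤ, (4 * (p : ℤ)) ∣ x ^ 2 - d) := ⟨_, rfl⟩
  have eS : split (T j) d t = S.card := by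
    unfold split
    rw [← Set.ncard_coe_finset]
    congr 1
    ext p
    rw [hS]
    simp only [Set.mem_setOf_eq, coe_filter, mem_pri]
    rw [lt_iff t ht1 p, ← hx]
    tauto
  have eM : total (T j) t = Q'.card := by
    unfold total
    rw [← Set.ncard_coe_finset]
    congr 1
    ext p
    rw [hQ']
    simp only [Set.mem_setOf_eq, coe_filter, mem_pri]
    rw [lt_iff t ht1 p, ← hx]
    tauto
  have hVt : V ≤ √(max 1 (total (T j) (2 * t) : ℝ)) * t ^ δ := by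
    rw [hV]
    apply mul_le_mul _ (Real.rpow_le_rpow (by linarith) hxt.le hδ.le) (by positivity) (Real.sqrt_nonneg _)
    apply Real.sqrt_le_sqrt
    apply max_le_max le_rfl
    have h5 : ((pri (2 * x)).filter (fun p => p ≠ 2 ∧ p ∈ T j)).card ≤ total (T j) (2 * t) := by
      unfold total
      rw [← Set.ncard_coe_finset]
      apply Set.ncard_le_ncard
      · intro p hp
        rw [coe_filter, Set.mem_setOf_eq, mem_pri] at hp
        refine ⟨hp.1.2, hp.2.2, ?_⟩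
        have h6 : (p : ℝ) ≤ 2 * x := by exact_mod_cast hp.1.1
        linarith
      · apply Set.Finite.subset (Set.finite_Iio (⌈2 * t⌉₊))
        intro p hp
        exact Nat.lt_ceil.2 hp.2.2
    exact_mod_cast h5
  have hV1 : 1 ≤ V := by
    rw [hV]
    apply one_le_mul_of_one_le_of_one_le
    · rw [Real.one_le_sqrt]
      exact le_max_left _ _
    · exact Real.one_le_rpow hx1 hδ.le
  have hAS : A.card ≤ S.card := by
    apply card_le_card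
    intro p hp
    rw [hAd, mem_filter] at hp
    rw [hS, mem_filter]
    exact ⟨hp.1, hp.2.2.1, splits (mem_pri.1 hp.1).2 hp.2.1 hd hdm hp.2.2.2⟩
  have hSB : S.card + B.card ≤ Q'.card := by
    have hdis : Disjoint S B := by
      rw [disjoint_left]
      intro p hp hp'
      rw [hS, mem_filter] at hp
      rw [hBd, mem_filter] at hp'
      exact not_splits (mem_pri.1 hp.1).2 hp'.2.1 hdm hp'.2.2.2 hp.2.2.2
    rw [← card_union_of_disjoint hdis]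
    apply card_le_card
    intro p hp
    rw [mem_union, hS, hBd, mem_filter, mem_filter] at hp
    rw [hQ', mem_filter]
    rcases hp with hp | hp
    · exact ⟨hp.1, hp.2.1⟩
    · exact ⟨hp.1, hp.2.2.1⟩
  have hMM : Q'.card ≤ Q.card + 1 := by
    have h5 : Q' ⊆ Q ∪ {2} := by
      intro p hp
      rw [hQ', mem_filter] at hp
      rw [mem_union, hQ, mem_filter, mem_singleton]
      by_cases h6 : p = 2
      · exact Or.inr h6
      · exact Or.inl ⟨hp.1, h6, hp.2⟩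
    refine (card_le_card h5).trans ((card_union_le _ _).trans ?_)
    rw [card_singleton]
  have hMM2 : Q.card ≤ Q'.card := by
    apply card_le_card
    intro p hp
    rw [hQ, mem_filter] at hp
    rw [hQ', mem_filter]
    exact ⟨hp.1, hp.2.2⟩
  have r1 : (A.card : ℝ) ≤ S.card := by exact_mod_cast hAS
  have r2 : (S.card : ℝ) + B.card ≤ Q'.card := by exact_mod_cast hSB
  have r3 : (Q'.card : ℝ) ≤ Q.card + 1 := by exact_mod_cast hMM
  have r4 : (Q.card : ℝ) ≤ Q'.card := by exact_mod_cast hMM2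
  have hA' : |(A.card : ℝ) - 1 / 2 * Q.card| ≤ 2 * V := by
    rw [hAd, hQ, hV, ← mul_assoc]
    exact hA
  have hB' : |(B.card : ℝ) - 1 / 2 * Q.card| ≤ 2 * V := by
    rw [hBd, hQ, hV, ← mul_assoc]
    exact hB
  rw [eS, eM, mul_assoc]
  rw [abs_le] at hA' hB' ⊢
  constructor <;> linarith [hA'.1, hA'.2, hB'.1, hB'.2]

end Pool.Agent.U331.CG.Fields
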