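import Pool.Agent.U331.CG.Cls
import Pool.Agent.R459.Bsd4

set_option autoImplicit false

/-! Lang-Trotter counts for pairs of random coefficients, for classes with exponential decay (after the starting file
`Pool.Agent.Results.MP_631487_nt.NonIntegralOrderPairs`). -/

namespace Pool.Agent.U331.CG.Pr

open Finset Filter Pool.Agent.R459.Eq Pool.Agent.N794.CG Pool.Agent.U331.CG
open Pool.Agent.W263.BSD (GoodPrime pointCount)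

/-- `p` is a prime of good reduction of the curve `E : y² = x³ + a x + n` (a prime which does not divide the discriminant
`-16 (4 a³ + 27 n²)`) and `a_p(E) = p - N_p = r`, where `N_p` is the number of the affine points modulo `p`. -/
def Trace (r : ℤ) (p : ℕ) (a n : ℤ) : Prop := GoodPrime a n p ∧ (p : ℤ) - pointCount a n p = r

open Classical in
/-- The number `π_E(x, r)` of the primes `p ≤ x` of good reduction of `E : y² = x³ + a x + n` with `a_p(E) = r`. -/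
noncomputable def piE (a n r : ℤ) (x : ℕ) : ℕ := ((range (x + 1)).filter (fun p => Trace r p a n)).card

open Classical in
/-- The sum over the primes `p ≤ x` of the proportion of the pairs `(α, ν)` of residues modulo `p` for which `p` is a prime of
good reduction of `y² = x³ + α x + ν` with trace `r`. -/
noncomputable def model (r : ℤ) (x : ℕ) : ℝ :=
  ∑ p ∈ (range (x + 1)).filter Nat.Prime,
    (((range p ×ˢ range p).filter (fun z : ℕ × ℕ => Trace r p z.1 z.2)).card : ℝ) / (p : ℝ) ^ 2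

/-- For all integers `|r| ≤ x ^ (δ / 4)` the number of the primes `p ≤ x` of good reduction of `E : y² = x³ + a x + n` with
`a_p(E) = r` differs from `model r x` by at most `3 x ^ δ` times the square root of `model r (4 x)` (or of `1`). -/
def Good (δ : ℝ) (x : ℕ) (a n : ℤ) : Prop := ∀ r : ℤ, |(r : ℝ)| ≤ (x : ℝ) ^ (δ / 4) →
  |(piE a n r x : ℝ) - model r x| ≤ 3 * √(max 1 (model r (4 * x))) * (x : ℝ) ^ δ

lemma piE_eq (a n r : ℤ) (x : ℕ) : piE a n r x = cntR (Trace r) a n x := by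
  classical
  unfold piE cntR
  congr 1
  ext p
  simp only [mem_filter, mem_range, mem_pri]
  constructor
  · rintro ⟨h1, h2⟩
    exact ⟨⟨by omega, h2.1.1⟩, h2⟩
  · rintro ⟨h1, h2⟩
    exact ⟨by omega, h2⟩

lemma model_eq (r : ℤ) (x : ℕ) : model r x = ∑ p ∈ pri x, dens2 (Trace r) p := by
  classical
  have e : (range (x + 1)).filter Nat.Prime = pri x := by
    unfold pri
    congr!
  unfold model dens2
  rw [e]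

lemma trace_per (r : ℤ) (p : ℕ) (_ : p.Prime) (a a' n n' : ℤ) (h : (p : ℤ) ∣ a - a') (h' : (p : ℤ) ∣ n - n') :
    Trace r p a n ↔ Trace r p a' n' := by
  have e1 : ((a : ℤ) : ZMod p) = ((a' : ℤ) : ZMod p) := by
    rw [← sub_eq_zero, ← Int.cast_sub, ZMod.intCast_zmod_eq_zero_iff_dvd]
    exact h
  have e2 : ((n : ℤ) : ZMod p) = ((n' : ℤ) : ZMod p) := by
    rw [← sub_eq_zero, ← Int.cast_sub, ZMod.intCast_zmod_eq_zero_iff_dvd]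
    exact h'
  have h1 : GoodPrime a n p ↔ GoodPrime a' n' p := by
    unfold GoodPrime
    rw [← ZMod.intCast_zmod_eq_zero_iff_dvd, ← ZMod.intCast_zmod_eq_zero_iff_dvd]
    push_cast
    rw [e1, e2]
  have h2 : pointCount a n p = pointCount a' n' p := by
    unfold pointCount
    rw [e1, e2]
  unfold Trace
  rw [h1, h2]

lemma trace_uniq (p : ℕ) (a n r r' : ℤ) (h : Trace r p a n) (h' : Trace r' p a n) : r = r' := by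
  rw [← h.2, ← h'.2]

/-- a curve which is not good -/
lemma bad_of {δ : ℝ} {x : ℕ} {a n : ℤ} (h : ¬ Good δ x a n) : ∃ r : ℤ, |(r : ℝ)| ≤ (x : ℝ) ^ (δ / 2 / 2) ∧
    3 * √(max 1 (∑ p ∈ pri (4 * x), dens2 (Trace r) p)) * (x : ℝ) ^ (2 * (δ / 2)) <
      |(cntR (Trace r) a n x : ℝ) - ∑ p ∈ pri x, dens2 (Trace r) p| := by
  unfold Good at h
  push Not at h
  obtain ⟨r, h1, h2⟩ := h
  have e1 : δ / 2 / 2 = δ / 4 := by ring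
  have e2 : 2 * (δ / 2) = δ := by ring
  refine ⟨r, by rw [e1]; exact h1, ?_⟩
  rw [e2, ← model_eq, ← model_eq, ← piE_eq]
  exact h2

/-- the change of the range -/
lemma range_two {x W N : ℕ} (hx : 2 ≤ x) (h : x ^ (2 * W) ≤ N) : x ^ W ≤ N ∧ (2 * x) ^ W ≤ N := by
  have h1 : (2 * x) ^ W ≤ x ^ (2 * W) := by
    rw [pow_mul]
    exact Nat.pow_le_pow_left (by nlinarith) W
  have h2 : x ^ W ≤ (2 * x) ^ W := Nat.pow_le_pow_left (by omega) W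
  exact ⟨h2.trans (h1.trans h), h1.trans h⟩

open Classical in
theorem pairs_cls (b₁ F₁ T₁ b₂ F₂ T₂ : ℕ) (hb₁ : 2 ≤ b₁) (hF₁ : 1 ≤ F₁) (hb₂ : 2 ≤ b₂) (hF₂ : 1 ≤ F₂)
    (C₁ C₂ : ℕ → (ℕ → ℝ) → Prop) (hnn₁ : ∀ k p, C₁ k p → ∀ v, 0 ≤ p v) (hnn₂ : ∀ k p, C₂ k p → ∀ v, 0 ≤ p v)
    (hs₁ : ∀ k p, C₁ k p → ∑ v ∈ range (b₁ ^ k), p v = 1) (hs₂ : ∀ k p, C₂ k p → ∑ v ∈ range (b₂ ^ k), p v = 1)
    (hC₁ : DomC b₁ F₁ T₁ C₁) (hC₂ : DomC b₂ F₂ T₂ C₂) (δ : ℝ) (hδ : 0 < δ) (hδ1 : δ ≤ 1) : ∃ W : ℕ, 1 ≤ W ∧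
      ∀ κ₁ κ₂ : ℤ, κ₁ ≠ 0 → κ₂ ≠ 0 → ∃ X₀ : ℕ, ∀ X : ℕ, X₀ ≤ X → ∀ (k₁ k₂ : ℕ) (w₁ w₂ : ℕ → ℝ), C₁ k₁ w₁ → C₂ k₂ w₂ →
      ∀ e₁ e₂ : ℤ,
      ∑ u ∈ range (b₁ ^ k₁), ∑ v ∈ range (b₂ ^ k₂),
        (if (∀ x : ℕ, X ≤ x → x ^ W ≤ b₁ ^ k₁ → x ^ W ≤ b₂ ^ k₂ → Good δ x (e₁ + κ₁ * (u : ℕ)) (e₂ + κ₂ * (v : ℕ)))
          then 0 else w₁ u * w₂ v) ≤ 4 * ((k₁ : ℝ) ^ T₁ + (k₂ : ℝ) ^ T₂) * (X : ℝ) ^ (-(δ / 4)) := by
  obtain ⟨W₁, hW₁, H₁⟩ := fineAt_cls (δ / 2) (by linarith) (by linarith) b₁ F₁ T₁ hb₁ hF₁ C₁ hC₁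
  obtain ⟨W₂, hW₂, H₂⟩ := fineAt_cls (δ / 2) (by linarith) (by linarith) b₂ F₂ T₂ hb₂ hF₂ C₂ hC₂
  refine ⟨2 * (W₁ + W₂), by omega, fun κ₁ κ₂ hκ₁ hκ₂ => ?_⟩
  obtain ⟨X₁, J₁⟩ := H₁ κ₁ hκ₁
  obtain ⟨X₂, J₂⟩ := H₂ κ₂ hκ₂
  refine ⟨X₁ + X₂ + 2, fun X hX k₁ k₂ w₁ w₂ hw₁ hw₂ e₁ e₂ => ?_⟩
  have F₁ := J₁ X (by omega) k₁ w₁ hw₁ e₁
  have F₂ := J₂ X (by omega) k₂ w₂ hw₂ e₂
  have h1 := pairs_trace (Ω₁ := range (b₁ ^ k₁)) (Ω₂ := range (b₂ ^ k₂)) (w₁ := w₁) (w₂ := w₂)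
      (fun i _ => hnn₁ _ _ hw₁ i) (fun i _ => hnn₂ _ _ hw₂ i) (hs₁ _ _ hw₁).le (hs₂ _ _ hw₂).le (by linarith : 0 < δ / 2) (by linarith)
      (by omega : 1 ≤ X) (by positivity) F₁ F₂ Trace trace_per trace_uniq
      ((range (b₁ ^ k₁) ×ˢ range (b₂ ^ k₂)).filter (fun z : ℕ × ℕ => ¬ ∀ x : ℕ, X ≤ x → x ^ (2 * (W₁ + W₂)) ≤ b₁ ^ k₁ →
        x ^ (2 * (W₁ + W₂)) ≤ b₂ ^ k₂ → Good δ x (e₁ + κ₁ * (z.1 : ℕ)) (e₂ + κ₂ * (z.2 : ℕ)))) (filter_subset _ _) (by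
        intro z hz
        have h2 := (mem_filter.1 hz).2
        push Not at h2
        obtain ⟨x, hXx, h3, h4, h5⟩ := h2
        have hx2 : 2 ≤ x := by omega
        have key : ∀ (W' Z : ℕ), W' ≤ W₁ + W₂ → x ^ (2 * (W₁ + W₂)) ≤ Z → x ^ W' ≤ Z ∧ (2 * x) ^ W' ≤ Z := by
          intro W' Z hW' hZ
          exact range_two hx2 (le_trans (Nat.pow_le_pow_right (by omega) (by omega : 2 * W' ≤ 2 * (W₁ + W₂))) hZ)
        exact ⟨x, hXx, (key W₁ _ (by omega) h3).1, (key W₁ _ (by omega) h3).2, (key W₂ _ (by omega) h4).1, bad_of h5⟩)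
  have e0 : ∑ u ∈ range (b₁ ^ k₁), ∑ v ∈ range (b₂ ^ k₂),
        (if (∀ x : ℕ, X ≤ x → x ^ (2 * (W₁ + W₂)) ≤ b₁ ^ k₁ → x ^ (2 * (W₁ + W₂)) ≤ b₂ ^ k₂ →
          Good δ x (e₁ + κ₁ * (u : ℕ)) (e₂ + κ₂ * (v : ℕ))) then 0 else w₁ u * w₂ v) =
      ∑ z ∈ (range (b₁ ^ k₁) ×ˢ range (b₂ ^ k₂)).filter (fun z : ℕ × ℕ => ¬ ∀ x : ℕ, X ≤ x → x ^ (2 * (W₁ + W₂)) ≤ b₁ ^ k₁ →
        x ^ (2 * (W₁ + W₂)) ≤ b₂ ^ k₂ → Good δ x (e₁ + κ₁ * (z.1 : ℕ)) (e₂ + κ₂ * (z.2 : ℕ))), w₁ z.1 * w₂ z.2 := by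
    rw [sum_filter, sum_product]
    refine sum_congr rfl fun u _ => sum_congr rfl fun v _ => ?_
    by_cases h : ∀ x : ℕ, X ≤ x → x ^ (2 * (W₁ + W₂)) ≤ b₁ ^ k₁ → x ^ (2 * (W₁ + W₂)) ≤ b₂ ^ k₂ →
          Good δ x (e₁ + κ₁ * (u : ℕ)) (e₂ + κ₂ * (v : ℕ))
    · rw [if_pos h, if_neg (not_not.2 h)]
    · rw [if_neg h, if_pos h]
  rw [e0]
  refine h1.trans (le_of_eq ?_)
  have e : δ / 2 / 2 = δ / 4 := by ring
  rw [e]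
  ring

end Pool.Agent.U331.CG.Pr
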